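import Pool.Agent.Lib.MP_de6cd8_gt.Ridge

set_option autoImplicit false

namespace Pool.Agent.Results.MP_de6cd8_gt.ArcComplexFiniteType

open Pool.Agent.Lib.MPde6cd8

/-- For every surface `F` with `r ≥ 1` boundary components, each carrying at least one
distinguished point, the quotient arc complex `Arc(F)` exists as a finite simplicial complex `K`
(the second barycentric subdivision), and every such `K`, if it is not empty, is a closed
pseudomanifold of dimension `d = 6g - 7 + 3r + 2s + ∑ δ i` and a type `n` space for
some `n ≤ d + 2`. -/
theorem result (F : Surf) :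
    (∃ K, IsArcComplex F K) ∧ ∀ K, IsArcComplex F K → (∃ v, K.IsVertex v) →
      ∃ d, d + 1 = F.N ∧ IsPM d K ∧ ∃ n ≤ d + 2, IsType TypeOne n K :=
  ⟨exists_isArcComplex F, fun _ h hv => arcComplex_isType h hv⟩

end Pool.Agent.Results.MP_de6cd8_gt.ArcComplexFiniteType
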